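import Pool.Agent.Run7.h275.RLJ
import Pool.Agent.H379R3.Reg

/-!
# The Jacobian criterion at a regular point: a light copy of `TH188/ARC/A2.lean`
-/

set_option autoImplicit false
set_option linter.unusedVariables false
set_option linter.unusedSectionVars false

universe u v w

namespace Pool.Agent.Run7.h639.RB

open IsLocalRing KaehlerDifferential TensorProduct Pool.Agent.Run7.h275.RL Pool.Agent.W418.LU2

theorem exists_min_gen_aux {O : Type u} [CommRing O] [IsLocalRing O] [IsNoetherianRing O]
    (K : Ideal O) (r : ℕ) : ∀ (w : Fin r → O), Ideal.span (Set.range w) = K →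
    ∃ (r : ℕ) (w : Fin r → O), Ideal.span (Set.range w) = K ∧
      ∀ c : Fin r → O, ∑ i, c i * w i ∈ maximalIdeal O * K → ∀ i, c i ∈ maximalIdeal O := by
  classical
  induction r with
  | zero => exact fun w hw => ⟨0, w, hw, fun c _ i => i.elim0⟩
  | succ r ih =>
    intro w hw
    by_cases h : ∀ c : Fin (r + 1) → O, ∑ i, c i * w i ∈ maximalIdeal O * K →
        ∀ i, c i ∈ maximalIdeal O
    · exact ⟨r + 1, w, hw, h⟩
    · push Not at h
      obtain ⟨c, hc, i₀, hi₀⟩ := h
      have hu : IsUnit (c i₀) := by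
        by_contra h4
        exact hi₀ ((IsLocalRing.mem_maximalIdeal _).2 h4)
      obtain ⟨u, hu⟩ := hu
      refine ih (fun i => w (i₀.succAbove i)) ?_
      set K' : Ideal O := Ideal.span (Set.range fun i => w (i₀.succAbove i)) with hK'
      have hle : K' ≤ K := by
        rw [hK', ← hw, Ideal.span_le]
        rintro _ ⟨i, rfl⟩
        exact Ideal.subset_span ⟨_, rfl⟩
      refine le_antisymm hle ?_
      have hfg : K.FG := (isNoetherianRing_iff_ideal_fg O).1 inferInstance K
      refine Submodule.le_of_le_smul_of_le_jacobson_bot (I := maximalIdeal O) hfg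
        (IsLocalRing.maximalIdeal_le_jacobson _) ?_
      have h1 : w i₀ ∈ K' ⊔ maximalIdeal O • K := by
        have h2 : w i₀ = ((u⁻¹ : Oˣ) : O) * (∑ i, c i * w i) -
            ∑ i, ((u⁻¹ : Oˣ) : O) * c (i₀.succAbove i) * w (i₀.succAbove i) := by
          rw [Fin.sum_univ_succAbove _ i₀, mul_add, Finset.mul_sum, ← hu, ← mul_assoc,
            Units.inv_mul, one_mul]
          simp only [← mul_assoc]
          ring
        rw [h2]
        refine Ideal.sub_mem _ ?_ ?_
        · exact Ideal.mem_sup_right (Ideal.mul_mem_left _ _ hc)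
        · exact Ideal.mem_sup_left (Ideal.sum_mem _ fun i _ =>
            Ideal.mul_mem_left _ _ (Ideal.subset_span ⟨i, rfl⟩))
      rw [← hw]
      rw [hw]
      nth_rewrite 1 [← hw]
      rw [Ideal.span_le]
      rintro _ ⟨i, rfl⟩
      rcases Fin.eq_self_or_eq_succAbove i₀ i with rfl | ⟨j, rfl⟩
      · exact h1
      · exact Ideal.mem_sup_left (Ideal.subset_span ⟨j, rfl⟩)

/-- Minimal generators. -/
theorem exists_min_gen {O : Type u} [CommRing O] [IsLocalRing O] [IsNoetherianRing O]
    (K : Ideal O) : ∃ (r : ℕ) (w : Fin r → O), Ideal.span (Set.range w) = K ∧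
      ∀ c : Fin r → O, ∑ i, c i * w i ∈ maximalIdeal O * K → ∀ i, c i ∈ maximalIdeal O := by
  classical
  obtain ⟨s, hs⟩ := (isNoetherianRing_iff_ideal_fg O).1 inferInstance K
  refine exists_min_gen_aux K s.card (fun i => (s.equivFin.symm i : O)) ?_
  rw [← hs]
  congr 1
  ext y
  constructor
  · rintro ⟨i, rfl⟩
    exact (s.equivFin.symm i).2
  · intro hy
    exact ⟨s.equivFin ⟨y, hy⟩, by simp⟩

/-- The Jacobian criterion: equations of a regular subscheme at a regular point, with a minor of
their derivatives which does not vanish at the point. -/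
theorem exists_jac_at {k₀ : Type v} {S L : Type u} [CommRing k₀] [CommRing S] [IsRegularRing S]
    [Algebra k₀ S] [Algebra.FormallySmooth k₀ S] [Field L] [Algebra S L] [Algebra k₀ L]
    [IsScalarTower k₀ S L] (hL : Subsingleton (Algebra.H1Cotangent k₀ L))
    (hfr : ∀ z : L, ∃ a b : S, algebraMap S L b ≠ 0 ∧ z * algebraMap S L b = algebraMap S L a)
    {O : Type w} [CommRing O] [Algebra S O]
    [(RingHom.ker (algebraMap S L)).IsPrime]
    [IsLocalization.AtPrime O (RingHom.ker (algebraMap S L))] [IsRegularLocalRing O]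
    (𝔭 : Ideal S) (h𝔭 : 𝔭 ≤ RingHom.ker (algebraMap S L))
    [IsRegularLocalRing (O ⧸ 𝔭.map (algebraMap S O))] :
    ∃ (r : ℕ) (f : Fin r → S) (D : Fin r → Derivation k₀ S S),
      (∀ i, f i ∈ 𝔭) ∧
      (∀ s ∈ 𝔭, ∃ t, algebraMap S L t ≠ 0 ∧ t * s ∈ Ideal.span (Set.range f)) ∧
      (Matrix.of fun i j => algebraMap S L (D j (f i))).det ≠ 0 := by
  classical
  set I : Ideal S := RingHom.ker (algebraMap S L) with hI
  have hmem : ∀ a : S, algebraMap S O a ∈ maximalIdeal O ↔ a ∈ I := fun a =>
    IsLocalization.AtPrime.to_map_mem_maximal_iff O I a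
  obtain ⟨r, w, hw, hwi⟩ := exists_min_gen (𝔭.map (algebraMap S O))
  have hinf := Pool.Agent.H379R3.inf_sq_le (𝔭.map (algebraMap S O))
  have hwK : ∀ i, w i ∈ 𝔭.map (algebraMap S O) := fun i => by
    rw [← hw]; exact Ideal.subset_span ⟨i, rfl⟩
  have hfs : ∀ i, ∃ (f : S) (t : I.primeCompl), f ∈ 𝔭 ∧
      w i * algebraMap S O (t : S) = algebraMap S O f := by
    intro i
    obtain ⟨⟨⟨y, hy⟩, t⟩, hyt⟩ := (IsLocalization.mem_map_algebraMap_iff I.primeCompl O).1 (hwK i)
    exact ⟨y, t, hy, hyt⟩
  choose f t hfp hwf using hfs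
  have hfI : ∀ i, f i ∈ I := fun i => h𝔭 (hfp i)
  have hgen : ∀ s ∈ 𝔭, ∃ t, algebraMap S L t ≠ 0 ∧
      t * s ∈ Ideal.span (Set.range f) := by
    intro s hs
    have h1 : algebraMap S O s ∈ (Ideal.span (Set.range f)).map (algebraMap S O) := by
      have h2 : algebraMap S O s ∈ 𝔭.map (algebraMap S O) := Ideal.mem_map_of_mem _ hs
      rw [← hw] at h2
      refine (Ideal.span_le.2 ?_) h2
      rintro _ ⟨i, rfl⟩
      have h3 : algebraMap S O (f i) ∈ (Ideal.span (Set.range f)).map (algebraMap S O) :=
        Ideal.mem_map_of_mem _ (Ideal.subset_span ⟨i, rfl⟩)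
      rw [← hwf i] at h3
      exact (Ideal.mul_unit_mem_iff_mem _ (IsLocalization.map_units O (t i))).1 h3
    obtain ⟨⟨⟨y, hy⟩, u⟩, hyu⟩ := (IsLocalization.mem_map_algebraMap_iff I.primeCompl O).1 h1
    change algebraMap S O s * algebraMap S O (u : S) = algebraMap S O y at hyu
    rw [← map_mul] at hyu
    obtain ⟨c, hc⟩ := (IsLocalization.eq_iff_exists I.primeCompl O).1 hyu
    refine ⟨(c : S) * u, ?_, ?_⟩
    · rw [map_mul]
      exact mul_ne_zero (fun h => c.2 (RingHom.mem_ker.2 h)) fun h => u.2 (RingHom.mem_ker.2 h)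
    · have h8 : (c : S) * u * s = c * y := by rw [← hc]; ring
      rw [h8]
      exact Ideal.mul_mem_left _ _ hy
  -- coordinates on the module of differentials
  obtain ⟨σ, hσ⟩ := Module.projective_def.1 (inferInstance : Module.Projective S (Ω[S⁄k₀]))
  let δ : Ω[S⁄k₀] → Derivation k₀ S S := fun β =>
    (Finsupp.lapply β ∘ₗ σ : Ω[S⁄k₀] →ₗ[S] S).compDer (KaehlerDifferential.D k₀ S)
  have hδ : ∀ β a, δ β a = σ (KaehlerDifferential.D k₀ S a) β := fun β a => rfl
  let B : Finset (Ω[S⁄k₀]) := Finset.univ.biUnion fun i => (σ (KaehlerDifferential.D k₀ S (f i))).support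
  have hDf : ∀ i, KaehlerDifferential.D k₀ S (f i) = ∑ β ∈ B, δ β (f i) • β := by
    intro i
    have h1 := hσ (KaehlerDifferential.D k₀ S (f i))
    rw [Finsupp.linearCombination_apply, Finsupp.sum_of_support_subset (s := B)] at h1
    · exact h1.symm
    · exact Finset.subset_biUnion_of_mem
        (fun i => (σ (KaehlerDifferential.D k₀ S (f i))).support) (Finset.mem_univ i)
    · intro β _
      exact zero_smul _ _
  obtain ⟨g, hg⟩ := exists_minor (fun (i : Fin r) (β : Ω[S⁄k₀]) => algebraMap S L (δ β (f i))) (by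
    intro c hc
    -- common denominators
    choose a' b' hb' hab using fun i => hfr (c i)
    let b : S := ∏ i, b' i
    have hb : algebraMap S L b ≠ 0 := by
      rw [map_prod]
      exact Finset.prod_ne_zero_iff.2 fun i _ => hb' i
    let a : Fin r → S := fun i => a' i * ∏ k ∈ Finset.univ.erase i, b' k
    have ha : ∀ i, c i * algebraMap S L b = algebraMap S L (a i) := by
      intro i
      have h2 : b = b' i * ∏ k ∈ Finset.univ.erase i, b' k :=
        (Finset.mul_prod_erase _ _ (Finset.mem_univ i)).symm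
      rw [h2, map_mul, ← mul_assoc, hab i, ← map_mul]
    have hx : algebraMap S L (∑ i, a i * f i) = 0 := by
      rw [map_sum]
      refine Finset.sum_eq_zero fun i _ => ?_
      rw [map_mul, RingHom.mem_ker.1 (hfI i), mul_zero]
    have hD : KaehlerDifferential.D k₀ S (∑ i, a i * f i) ∈
        RingHom.ker (algebraMap S L) • (⊤ : Submodule S (Ω[S⁄k₀])) := by
      have h1 : KaehlerDifferential.D k₀ S (∑ i, a i * f i) =
          ∑ i, f i • KaehlerDifferential.D k₀ S (a i) + ∑ β ∈ B, (∑ i, a i * δ β (f i)) • β := by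
        have h2 : ∑ β ∈ B, (∑ i, a i * δ β (f i)) • β =
            ∑ i, a i • KaehlerDifferential.D k₀ S (f i) := by
          simp_rw [hDf, Finset.smul_sum, Finset.sum_smul, mul_smul]
          exact Finset.sum_comm
        rw [h2, map_sum, ← Finset.sum_add_distrib]
        refine Finset.sum_congr rfl fun i _ => ?_
        rw [Derivation.leibniz, add_comm]
      rw [h1]
      refine Submodule.add_mem _ (Submodule.sum_mem _ fun i _ =>
        Submodule.smul_mem_smul (hfI i) trivial) (Submodule.sum_mem _ fun β _ =>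
        Submodule.smul_mem_smul ?_ trivial)
      rw [RingHom.mem_ker, map_sum]
      have h3 := hc β
      have h4 : ∑ i, algebraMap S L (a i * δ β (f i)) =
          algebraMap S L b * ∑ i, c i * algebraMap S L (δ β (f i)) := by
        rw [Finset.mul_sum]
        refine Finset.sum_congr rfl fun i _ => ?_
        rw [map_mul, ← ha i]
        ring
      rw [h4, h3, mul_zero]
    obtain ⟨s, hs, hsx⟩ := sq_of_D hL hfr hx hD
    have h1 : ∑ i, algebraMap S O (s * a i * (t i : S)) * w i ∈ maximalIdeal O ^ 2 := by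
      have h2 : algebraMap S O (s * ∑ i, a i * f i) ∈ maximalIdeal O ^ 2 := by
        have h3 : maximalIdeal O = I.map (algebraMap S O) :=
          (IsLocalization.AtPrime.map_eq_maximalIdeal I O).symm
        rw [h3, ← Ideal.map_pow]
        exact Ideal.mem_map_of_mem _ hsx
      convert h2 using 1
      rw [Finset.mul_sum, map_sum]
      refine Finset.sum_congr rfl fun i _ => ?_
      have e1 : algebraMap S O (s * a i * (t i : S)) =
          algebraMap S O s * algebraMap S O (a i) * algebraMap S O (t i : S) := by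
        rw [map_mul, map_mul]
      have e2 : algebraMap S O (s * (a i * f i)) =
          algebraMap S O s * (algebraMap S O (a i) * algebraMap S O (f i)) := by
        rw [map_mul, map_mul]
      rw [e1, e2, ← hwf i]
      ring
    have h1' : ∑ i, algebraMap S O (s * a i * (t i : S)) * w i ∈
        maximalIdeal O * 𝔭.map (algebraMap S O) :=
      hinf ⟨Ideal.sum_mem _ fun i _ => Ideal.mul_mem_left _ _ (hwK i), h1⟩
    funext i
    have h2 := hwi _ h1' i
    rw [hmem] at h2
    have h3 : algebraMap S L (s * a i * (t i : S)) = 0 := RingHom.mem_ker.1 h2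
    rw [map_mul, map_mul, ← ha i] at h3
    have h4 : algebraMap S L (t i : S) ≠ 0 := fun h => (t i).2 (RingHom.mem_ker.2 h)
    have h5 := (mul_eq_zero.1 h3).resolve_right h4
    have h6 := (mul_eq_zero.1 h5).resolve_left hs
    exact (mul_eq_zero.1 h6).resolve_right hb)
  exact ⟨r, f, fun j => δ (g j), hfp, hgen, hg⟩

end Pool.Agent.Run7.h639.RB
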