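import Pool.Agent.Run7.h275.RB5
import Pool.Agent.Run7.h639.RB.JacAt

/-!
# Project RB (helper275), piece NUM: a uniform integer which is bounded by minors

Adapted from `TH188/ARC/A7.lean`, `A14.lean`, `A19.lean`.
-/

set_option autoImplicit false
set_option linter.unusedVariables false
set_option linter.unusedSectionVars false

namespace Pool.Agent.Run7.h639.RB

open IsLocalRing Pool.Agent.Run7.h275.RB Pool.Agent.Run7.h275.RL

section locdata

variable {F L : Type} [Field F] [Field L]

/-- The local ring at the kernel of `α`. -/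
theorem loc_data {B : Subring F} (α : B →+* L) [hp : (RingHom.ker α).IsPrime]
    (hreg : IsRegularLocalRing (Localization.AtPrime (RingHom.ker α))) :
    ∃ (A : Subring F) (π : A →+* L) (h : B ≤ A), IsRegularLocalRing A ∧
      (∀ b : B, π ⟨b, h b.2⟩ = α b) ∧ (∀ a : A, π a ≠ 0 → (a : F)⁻¹ ∈ A) ∧
      ∀ a ∈ A, ∃ b c : B, α c ≠ 0 ∧ a = (b : F) * (c : F)⁻¹ := by
  have h0 : ∀ c : B, α c ≠ 0 → (c : F) ≠ 0 := by
    intro c hc h
    apply hc
    have : c = 0 := Subtype.ext h
    rw [this, map_zero]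
  have hu1 : ∀ y : (RingHom.ker α).primeCompl, IsUnit (B.subtype (y : B)) := fun y =>
    isUnit_iff_ne_zero.2 (h0 _ fun h => y.2 (RingHom.mem_ker.2 h))
  have hu2 : ∀ y : (RingHom.ker α).primeCompl, IsUnit (α (y : B)) := fun y =>
    isUnit_iff_ne_zero.2 fun h => y.2 (RingHom.mem_ker.2 h)
  let Lo := Localization.AtPrime (RingHom.ker α)
  let θ : Lo →+* F := IsLocalization.lift (M := (RingHom.ker α).primeCompl) hu1
  let ρ : Lo →+* L := IsLocalization.lift (M := (RingHom.ker α).primeCompl) hu2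
  have hθi : Function.Injective θ := by
    rw [injective_iff_map_eq_zero]
    intro z hz
    obtain ⟨a, y, rfl⟩ := IsLocalization.exists_mk'_eq (RingHom.ker α).primeCompl z
    have h1 : B.subtype a = B.subtype (y : B) * 0 :=
      (IsLocalization.lift_mk'_spec (S := Lo) (hg := hu1) a 0 y).1 hz
    rw [mul_zero] at h1
    have h2 : a = 0 := Subtype.ext h1
    rw [h2, IsLocalization.mk'_zero]
  let e : Lo ≃+* θ.range := RingEquiv.ofBijective θ.rangeRestrict
    ⟨fun a b h => hθi (congrArg Subtype.val h), θ.rangeRestrict_surjective⟩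
  have he : ∀ z, ((e z : θ.range) : F) = θ z := fun z => rfl
  let π : θ.range →+* L := ρ.comp e.symm.toRingHom
  have hπ : ∀ z, π (e z) = ρ z := fun z => by
    change ρ (e.symm (e z)) = ρ z
    rw [RingEquiv.symm_apply_apply]
  have hB : B ≤ θ.range := fun b hb => ⟨algebraMap B Lo ⟨b, hb⟩, IsLocalization.lift_eq hu1 _⟩
  have hmk : ∀ (a : B) (y : (RingHom.ker α).primeCompl),
      θ (IsLocalization.mk' Lo a y) = (a : F) * ((y : B) : F)⁻¹ := by
    intro a y
    rw [IsLocalization.lift_mk'_spec]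
    have hy := h0 (y : B) fun h => y.2 (RingHom.mem_ker.2 h)
    change (a : F) = ((y : B) : F) * ((a : F) * ((y : B) : F)⁻¹)
    field_simp
  refine ⟨θ.range, π, hB, IsRegularLocalRing.of_ringEquiv e, ?_, ?_, ?_⟩
  · intro b
    have h1 : (⟨b, hB b.2⟩ : θ.range) = e (algebraMap B Lo b) := by
      apply Subtype.ext
      rw [he]
      exact (IsLocalization.lift_eq hu1 _).symm
    rw [h1, hπ]
    exact IsLocalization.lift_eq hu2 _
  · intro a ha
    obtain ⟨z, rfl⟩ := e.surjective a
    obtain ⟨b, y, rfl⟩ := IsLocalization.exists_mk'_eq (RingHom.ker α).primeCompl z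
    rw [hπ] at ha
    have hb : α b ≠ 0 := by
      intro hb
      apply ha
      rw [IsLocalization.lift_mk'_spec, mul_zero]
      exact hb
    have hbp : b ∈ (RingHom.ker α).primeCompl := fun h => hb (RingHom.mem_ker.1 h)
    refine ⟨IsLocalization.mk' Lo (y : B) ⟨b, hbp⟩, ?_⟩
    rw [hmk, he, hmk, mul_inv, inv_inv, mul_comm]
  · rintro _ ⟨z, rfl⟩
    obtain ⟨b, y, rfl⟩ := IsLocalization.exists_mk'_eq (RingHom.ker α).primeCompl z
    exact ⟨b, y, fun h => y.2 (RingHom.mem_ker.2 h), hmk b y⟩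


end locdata

/-- The first cotangent homology. -/
theorem h1_ft {O K L : Type} [CommRing O] [Field K] [Algebra O K] [IsFractionRing O K] [PerfectField K] [Field L]
    [Algebra K L] [Algebra.EssFiniteType K L] [Algebra O L]
    (h : ∀ o, algebraMap O L o = algebraMap K L (algebraMap O K o)) : Subsingleton (Algebra.H1Cotangent O L) := by
  have h1 : IsScalarTower O K L := IsScalarTower.of_algebraMap_eq h
  have h2 : Algebra.FormallySmooth K L := inferInstance
  have h3 : Algebra.FormallySmooth O K := Algebra.FormallySmooth.of_isLocalization (nonZeroDivisors O)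
  have h4 : Algebra.FormallySmooth O L := Algebra.FormallySmooth.comp O K L
  exact h4.subsingleton_h1Cotangent

/-- A minor which does not vanish at the point. -/
theorem trait_mn {O F L : Type} [CommRing O] [IsDomain O] [IsRegularRing O] [Field F]
    [Algebra O F] [Field L] {n : ℕ} (y : Fin n → F) (i : Fin n) {A : Subring F}
    [IsRegularLocalRing A]
    (hxA : ∀ j, y j / y i ∈ A) (hOA : ∀ o, algebraMap O F o ∈ A) {π : A →+* L}
    (hπs : Function.Surjective π)
    (hH' : ∀ [Algebra O L], (∀ o, algebraMap O L o = π ⟨_, hOA o⟩) → Subsingleton (Algebra.H1Cotangent O L))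
    (hAfr : ∀ a ∈ A, ∃ b ∈ Algebra.adjoin O (Set.range fun j => y j / y i),
      ∃ c ∈ Algebra.adjoin O (Set.range fun j => y j / y i),
      ∃ hc : c ∈ A, π ⟨c, hc⟩ ≠ 0 ∧ a = b * c⁻¹)
    (hunitA : ∀ a : A, π a ≠ 0 → (a : F)⁻¹ ∈ A) :
    ∃ d : A, π d ≠ 0 ∧ Mn O y i (d : F) ∧
      (d : F) ∈ Algebra.adjoin O (Set.range fun j => y j / y i) := by
  classical
  set x : Fin n → F := fun j => y j / y i with hx
  let S := MvPolynomial (Fin n) O
  let φ : S →+* F := (MvPolynomial.aeval x : S →ₐ[O] F).toRingHom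
  have hφr : φ.range = (Algebra.adjoin O (Set.range x)).toSubring := by
    rw [Algebra.adjoin_range_eq_range_aeval]
    rfl
  have hBA : (Algebra.adjoin O (Set.range x)).toSubring ≤ A := by
    let A' : Subalgebra O F := { A with algebraMap_mem' := hOA }
    have : Algebra.adjoin O (Set.range x) ≤ A' := Algebra.adjoin_le (by
      rintro _ ⟨i, rfl⟩
      exact hxA i)
    exact this
  have hφA : ∀ s, φ s ∈ A := fun s => hBA (hφr ▸ ⟨s, rfl⟩)
  let φA : S →+* A := φ.codRestrict A hφA
  -- units of `A`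
  have hπu : ∀ a : A, π a ≠ 0 ↔ IsUnit a := by
    intro a
    constructor
    · intro ha
      have ha0 : (a : F) ≠ 0 := by
        intro h1
        apply ha
        have : a = 0 := Subtype.ext h1
        rw [this, map_zero]
      exact isUnit_iff_exists_inv.2 ⟨⟨_, hunitA a ha⟩, Subtype.ext (mul_inv_cancel₀ ha0)⟩
    · intro ha
      exact (ha.map π).ne_zero
  let _ : Algebra S L := (π.comp φA).toAlgebra
  let _ : Algebra O L := ((algebraMap S L).comp (algebraMap O S)).toAlgebra
  have hst : IsScalarTower O S L := IsScalarTower.of_algebraMap_eq fun _ => rfl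
  have hφO : ∀ o : O, φA (algebraMap O S o) = ⟨_, hOA o⟩ := fun o =>
    Subtype.ext ((MvPolynomial.aeval x : S →ₐ[O] F).commutes o)
  have hH : Subsingleton (Algebra.H1Cotangent O L) := hH' fun o => by
    change π (φA (algebraMap O S o)) = _
    rw [hφO]
  have hfr : ∀ z : L, ∃ a b : S, algebraMap S L b ≠ 0 ∧
      z * algebraMap S L b = algebraMap S L a := by
    intro z
    obtain ⟨a, rfl⟩ := hπs z
    obtain ⟨b, hb, c, hc, hcA, hπc, habc⟩ := hAfr a a.2
    obtain ⟨s, hs⟩ : b ∈ φ.range := by rw [hφr]; exact hb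
    obtain ⟨t, ht⟩ : c ∈ φ.range := by rw [hφr]; exact hc
    have hsA : φA s = ⟨b, hBA hb⟩ := Subtype.ext hs
    have htA : φA t = ⟨c, hcA⟩ := Subtype.ext ht
    refine ⟨s, t, ?_, ?_⟩
    · change π (φA t) ≠ 0
      rw [htA]
      exact hπc
    · change π a * π (φA t) = π (φA s)
      rw [← map_mul]
      congr 1
      rw [hsA, htA]
      apply Subtype.ext
      change (a : F) * c = b
      have hc0 : c ≠ 0 := by
        intro h1
        apply hπc
        have : (⟨c, hcA⟩ : A) = 0 := Subtype.ext h1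
        rw [this, map_zero]
      rw [habc, mul_assoc, inv_mul_cancel₀ hc0, mul_one]
  set I : Ideal S := RingHom.ker (algebraMap S L) with hI
  have hIp : I.IsPrime := RingHom.ker_isPrime _
  have hIm : ∀ s, s ∈ I ↔ π (φA s) = 0 := fun s => by
    rw [hI, RingHom.mem_ker]
    rfl
  let O' := Localization.AtPrime I
  have hO' : IsRegularLocalRing O' := IsRegularRing.isRegularLocalRing_localization I
  let 𝔭 : Ideal S := RingHom.ker φ
  have h𝔭 : 𝔭 ≤ I := by
    intro s hs
    rw [hIm]
    have : φA s = 0 := Subtype.ext (RingHom.mem_ker.1 hs)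
    rw [this, map_zero]
  have hunit : ∀ y : I.primeCompl, IsUnit (φA y) := by
    intro y
    rw [← hπu]
    exact fun h1 => y.2 ((hIm _).2 h1)
  let θ : O' →+* A := IsLocalization.lift (M := I.primeCompl) hunit
  have hθ : ∀ s, θ (algebraMap S O' s) = φA s := fun s => IsLocalization.lift_eq hunit s
  have hθs : Function.Surjective θ := by
    intro a
    obtain ⟨b, hb, c, hc, hcA, hπc, habc⟩ := hAfr a a.2
    obtain ⟨s, hs⟩ : b ∈ φ.range := by rw [hφr]; exact hb
    obtain ⟨t, ht⟩ : c ∈ φ.range := by rw [hφr]; exact hc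
    have hsA : φA s = ⟨b, hBA hb⟩ := Subtype.ext hs
    have htA : φA t = ⟨c, hcA⟩ := Subtype.ext ht
    have htI : t ∈ I.primeCompl := by
      intro h1
      have h2 := (hIm t).1 h1
      rw [htA] at h2
      exact hπc h2
    refine ⟨IsLocalization.mk' O' s ⟨t, htI⟩, ?_⟩
    rw [IsLocalization.lift_mk'_spec]
    change φA s = φA t * a
    rw [hsA, htA]
    apply Subtype.ext
    change b = c * a
    have hc0 : c ≠ 0 := by
      intro h1
      apply hπc
      have : (⟨c, hcA⟩ : A) = 0 := Subtype.ext h1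
      rw [this, map_zero]
    rw [habc]
    field_simp
  have hθk : RingHom.ker θ = 𝔭.map (algebraMap S O') := by
    apply le_antisymm
    · intro y hy
      obtain ⟨s, t, rfl⟩ := IsLocalization.exists_mk'_eq I.primeCompl y
      have h1 : θ (IsLocalization.mk' O' s t) * φA t = φA s := by
        rw [← hθ, ← hθ, ← map_mul, IsLocalization.mk'_spec]
      rw [RingHom.mem_ker.1 hy, zero_mul] at h1
      have h2 : s ∈ 𝔭 := RingHom.mem_ker.2 (congrArg Subtype.val h1).symm
      rw [IsLocalization.mk'_eq_mul_mk'_one]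
      exact Ideal.mul_mem_right _ _ (Ideal.mem_map_of_mem _ h2)
    · rw [Ideal.map_le_iff_le_comap]
      intro s hs
      rw [Ideal.mem_comap, RingHom.mem_ker, hθ]
      exact Subtype.ext (RingHom.mem_ker.1 hs)
  have hreg : IsRegularLocalRing (O' ⧸ 𝔭.map (algebraMap S O')) := by
    rw [← hθk]
    exact IsRegularLocalRing.of_ringEquiv (RingHom.quotientKerEquivOfSurjective hθs).symm
  have hIp' : (RingHom.ker (algebraMap S L)).IsPrime := hIp
  have hloc : IsLocalization.AtPrime O' (RingHom.ker (algebraMap S L)) :=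
    inferInstanceAs (IsLocalization.AtPrime O' I)
  obtain ⟨r, f, D, hf, hgen, hdet⟩ := exists_jac_at (k₀ := O) (O := O') hH hfr 𝔭 h𝔭
  have hdA : (Matrix.of fun i j => φ (D j (f i))).det = ((Matrix.of fun i j =>
      φA (D j (f i))).det : A) := by
    have h1 := RingHom.map_det A.subtype (Matrix.of fun i j => φA (D j (f i)))
    exact h1.symm
  have hd0 : π (Matrix.of fun i j => φA (D j (f i))).det ≠ 0 := by
    intro h1
    apply hdet
    have h2 := RingHom.map_det π (Matrix.of fun i j => φA (D j (f i)))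
    rw [h1] at h2
    exact h2.symm
  have hgen' : ∀ s, φ s = 0 → ∃ t, φ t ≠ 0 ∧ t * s ∈ Ideal.span (Set.range f) := by
    intro s hs
    obtain ⟨t, ht, hts⟩ := hgen s (RingHom.mem_ker.2 hs)
    refine ⟨t, fun h1 => ht ?_, hts⟩
    have h2 : φA t = 0 := Subtype.ext h1
    change π (φA t) = 0
    rw [h2, map_zero]
  refine ⟨(Matrix.of fun i j => φA (D j (f i))).det, hd0,
    ⟨r, f, fun l => (D l).restrictScalars ℤ, fun k => RingHom.mem_ker.1 (hf k), hgen', ?_⟩, ?_⟩
  · rw [← hdA]
    rfl
  · have h1 := RingHom.map_det φ (Matrix.of fun i j => D j (f i))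
    have h2 : ((Matrix.of fun i j => φA (D j (f i))).det : F) ∈ φ.range := by
      refine ⟨(Matrix.of fun i j => D j (f i)).det, ?_⟩
      rw [h1, ← hdA]
      rfl
    rw [hφr] at h2
    exact h2

section

variable {O F K : Type} [CommRing O] [Field F] [Algebra O F] [Field K] [Algebra O K] [IsDomain O]
  [IsFractionRing O K] [Algebra K F] [IsScalarTower O K F] [IsRegularRing O]

/-- A uniform minor in a chart. -/
theorem uniform_chart [CharZero K] {n : ℕ} (y : Fin n → F) (hy : ∀ i, y i ≠ 0)
    (i₀ : Fin n)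
    (hreg : ∀ (P : Ideal (Algebra.adjoin K (Set.range fun j => y j / y i₀)).toSubring)
      [P.IsPrime], IsRegularLocalRing (Localization.AtPrime P)) :
    ∃ o : O, o ≠ 0 ∧ ∀ V : ValuationSubring F, Cn O V → (∀ j, y j / y i₀ ∈ V) →
      ∃ δ, Mn O y i₀ δ ∧ V.valuation (algebraMap O F o) ≤ V.valuation δ := by
  classical
  have hOK : Function.Injective (algebraMap O K) := IsFractionRing.injective O K
  have hOF : Function.Injective (algebraMap O F) := by
    rw [IsScalarTower.algebraMap_eq O K F]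
    exact (algebraMap K F).injective.comp hOK
  let B : Subalgebra O F := Algebra.adjoin O (Set.range fun j => y j / y i₀)
  let C : Subalgebra K F := Algebra.adjoin K (Set.range fun j => y j / y i₀)
  have hBC : ∀ b ∈ B, b ∈ C := by
    have : B ≤ C.restrictScalars O := Algebra.adjoin_le Algebra.subset_adjoin
    exact this
  -- denominators
  have hden : ∀ b : F, b ∈ C → ∃ o : O, o ≠ 0 ∧ algebraMap O F o * b ∈ B := by
    intro b hb
    induction hb using Algebra.adjoin_induction with
    | mem b hb1 =>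
      obtain ⟨j, rfl⟩ := hb1
      refine ⟨1, one_ne_zero, ?_⟩
      rw [map_one, one_mul]
      exact Algebra.subset_adjoin ⟨j, rfl⟩
    | algebraMap k =>
      obtain ⟨a, o, ho, hk⟩ := IsFractionRing.div_surjective (A := O) k
      have h1 : algebraMap O K o ≠ 0 := IsFractionRing.to_map_ne_zero_of_mem_nonZeroDivisors ho
      refine ⟨o, nonZeroDivisors.ne_zero ho, ?_⟩
      have : algebraMap O F o * algebraMap K F k = algebraMap O F a := by
        rw [mul_comm, IsScalarTower.algebraMap_apply O K F, IsScalarTower.algebraMap_apply O K F,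
          ← map_mul, ← hk, div_mul_cancel₀ _ h1]
      rw [this]
      exact Subalgebra.algebraMap_mem _ a
    | add a b hax hbx ha hb =>
      obtain ⟨o, ho, hao⟩ := ha
      obtain ⟨o', ho', hbo⟩ := hb
      refine ⟨o * o', mul_ne_zero ho ho', ?_⟩
      have h1 : algebraMap O F (o * o') * (a + b) =
          algebraMap O F o * a * algebraMap O F o' +
          algebraMap O F o' * b * algebraMap O F o := by rw [map_mul]; ring
      rw [h1]
      exact Subalgebra.add_mem _ (Subalgebra.mul_mem _ hao (Subalgebra.algebraMap_mem _ _))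
        (Subalgebra.mul_mem _ hbo (Subalgebra.algebraMap_mem _ _))
    | mul a b hax hbx ha hb =>
      obtain ⟨o, ho, hao⟩ := ha
      obtain ⟨o', ho', hbo⟩ := hb
      refine ⟨o * o', mul_ne_zero ho ho', ?_⟩
      have h1 : algebraMap O F (o * o') * (a * b) = (algebraMap O F o * a) *
          (algebraMap O F o' * b) := by rw [map_mul]; ring
      rw [h1]
      exact Subalgebra.mul_mem _ hao hbo
  let J : Ideal C := Ideal.span {c : C | Mn O y i₀ (c : F)}
  have hJ : J = ⊤ := by
    by_contra hJ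
    obtain ⟨𝔪, hmax, hle⟩ := Ideal.exists_le_maximal J hJ
    let iF : Field (C ⧸ 𝔪) := Ideal.Quotient.field 𝔪
    let α : C.toSubring →+* (C ⧸ 𝔪) := Ideal.Quotient.mk 𝔪
    have hαs : Function.Surjective α := Ideal.Quotient.mk_surjective
    have hkp : (RingHom.ker α).IsPrime := RingHom.ker_isPrime _
    obtain ⟨A, π, hA, hAreg, hπα, hunit, hfr⟩ := loc_data α (hreg (RingHom.ker α))
    have hOC : ∀ o : O, algebraMap O F o ∈ C := fun o => hBC _ (Subalgebra.algebraMap_mem _ o)
    have hOA : ∀ o : O, algebraMap O F o ∈ A := fun o => hA (hOC o)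
    have hxA : ∀ j, y j / y i₀ ∈ A := fun j => hA (Algebra.subset_adjoin ⟨j, rfl⟩)
    have hπs : Function.Surjective π := fun z => by
      obtain ⟨c, hc⟩ := hαs z
      exact ⟨⟨_, hA c.2⟩, by rw [hπα, hc]⟩
    have hOK' : ∀ o : O, π ⟨_, hOA o⟩ = algebraMap K (C ⧸ 𝔪) (algebraMap O K o) := by
      intro o
      have h1 := hπα ⟨_, hOC o⟩
      refine h1.trans ?_
      have h2 : (⟨algebraMap O F o, hOC o⟩ : C) = algebraMap K C (algebraMap O K o) :=
        Subtype.ext (IsScalarTower.algebraMap_apply O K F o)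
      change Ideal.Quotient.mk 𝔪 (⟨algebraMap O F o, hOC o⟩ : C) = _
      rw [h2]
      rfl
    have hft : Algebra.FiniteType K (C ⧸ 𝔪) := by
      have h1 : Algebra.FiniteType K C := Subalgebra.fg_iff_finiteType _ |>.1
        (Subalgebra.fg_def.2 ⟨_, Set.finite_range _, rfl⟩)
      exact Algebra.FiniteType.of_surjective (Ideal.Quotient.mkₐ K 𝔪) (Ideal.Quotient.mkₐ_surjective K 𝔪)
    have hOL : ∀ o : O, o ≠ 0 → π ⟨_, hOA o⟩ ≠ 0 := by
      intro o ho h
      rw [hOK'] at h
      exact ho (hOK (((algebraMap K (C ⧸ 𝔪)).injective (h.trans (map_zero _).symm)).trans (map_zero _).symm))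
    have hfr' : ∀ a ∈ A, ∃ b ∈ Algebra.adjoin O (Set.range fun j => y j / y i₀),
        ∃ c ∈ Algebra.adjoin O (Set.range fun j => y j / y i₀),
        ∃ hc : c ∈ A, π ⟨c, hc⟩ ≠ 0 ∧ a = b * c⁻¹ := by
      intro a ha
      obtain ⟨b, c, hc, rfl⟩ := hfr a ha
      obtain ⟨o, ho, hbo⟩ := hden b b.2
      obtain ⟨o', ho', hco⟩ := hden c c.2
      have hcπ : π ⟨c, hA c.2⟩ ≠ 0 := by rw [hπα]; exact hc
      have hne : ∀ (z : F) (hz : z ∈ A), π ⟨z, hz⟩ ≠ 0 → z ≠ 0 := by
        intro z hz h h0
        apply h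
        have : (⟨z, hz⟩ : A) = 0 := Subtype.ext h0
        rw [this, map_zero]
      refine ⟨algebraMap O F o * b * algebraMap O F o',
        Subalgebra.mul_mem _ hbo (Subalgebra.algebraMap_mem _ _),
        algebraMap O F o' * c * algebraMap O F o,
        Subalgebra.mul_mem _ hco (Subalgebra.algebraMap_mem _ _),
        A.mul_mem (A.mul_mem (hOA _) (hA c.2)) (hOA _), ?_, ?_⟩
      · have h1 : (⟨algebraMap O F o' * c * algebraMap O F o,
            A.mul_mem (A.mul_mem (hOA _) (hA c.2)) (hOA _)⟩ : A) =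
            ⟨_, hOA o'⟩ * ⟨c, hA c.2⟩ * ⟨_, hOA o⟩ := rfl
        rw [h1, map_mul, map_mul]
        exact mul_ne_zero (mul_ne_zero (hOL _ ho') hcπ) (hOL _ ho)
      · have h1 := hne _ _ hcπ
        have h2 := hne _ _ (hOL _ ho)
        have h3 := hne _ _ (hOL _ ho')
        field_simp
    obtain ⟨d, hd0, hd, hdB⟩ := trait_mn (O := O) y i₀ (A := A) hxA hOA (π := π) hπs
      (fun h => h1_ft (K := K) fun o => (h o).trans (hOK' o)) hfr' hunit
    have hdC : (d : F) ∈ C := hBC _ hdB
    have h1 : (⟨d, hdC⟩ : C) ∈ J := Ideal.subset_span hd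
    have h2 : α ⟨d, hdC⟩ = 0 := Ideal.Quotient.eq_zero_iff_mem.2 (hle h1)
    apply hd0
    have h3 := hπα ⟨d, hdC⟩
    rw [h2] at h3
    exact h3
  -- there is at least one minor
  obtain ⟨δ₀, hδ₀⟩ : ∃ δ₀, Mn O y i₀ δ₀ := by
    by_contra hcon
    push Not at hcon
    have h1 : J = ⊥ := by
      have h2 : {c : C | Mn O y i₀ (c : F)} = ∅ := by
        ext c
        simp [hcon]
      change Ideal.span _ = _
      rw [h2, Ideal.span_empty]
    rw [h1] at hJ
    exact bot_ne_top hJ
  have key : ∀ c ∈ J, ∃ o : O, o ≠ 0 ∧ ∀ V : ValuationSubring F, Cn O V → (∀ j, y j / y i₀ ∈ V) →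
      ∃ δ, Mn O y i₀ δ ∧
        V.valuation (algebraMap O F o * (c : F)) ≤ V.valuation δ := by
    intro c hc
    induction hc using Submodule.span_induction with
    | mem c hc =>
      exact ⟨1, one_ne_zero, fun V _ _ => ⟨c, hc, by rw [map_one, one_mul]⟩⟩
    | zero =>
      exact ⟨1, one_ne_zero, fun V _ _ => ⟨δ₀, hδ₀, by
        rw [ZeroMemClass.coe_zero, mul_zero, map_zero]
        exact zero_le⟩⟩
    | add a b _ _ ha hb =>
      obtain ⟨o, ho, h1⟩ := ha
      obtain ⟨o', ho', h2⟩ := hb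
      refine ⟨o * o', mul_ne_zero ho ho', fun V hV hyV => ?_⟩
      obtain ⟨δ, hδ, hle⟩ := h1 V hV hyV
      obtain ⟨δ', hδ', hle'⟩ := h2 V hV hyV
      have hOV : ∀ o : O, V.valuation (algebraMap O F o) ≤ 1 := fun o =>
        (V.valuation_le_one_iff _).2 (hV o)
      have e1 : algebraMap O F (o * o') * ((a + b : C) : F) =
          algebraMap O F o' * (algebraMap O F o * (a : F)) +
          algebraMap O F o * (algebraMap O F o' * (b : F)) := by
        rw [Subalgebra.coe_add, map_mul]; ring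
      have l1 : V.valuation (algebraMap O F o' * (algebraMap O F o * (a : F))) ≤
          V.valuation δ := by
        rw [map_mul]
        exact mul_le_of_le_one_of_le (hOV o') hle
      have l2 : V.valuation (algebraMap O F o * (algebraMap O F o' * (b : F))) ≤
          V.valuation δ' := by
        rw [map_mul]
        exact mul_le_of_le_one_of_le (hOV o) hle'
      rw [e1]
      rcases le_total (V.valuation δ) (V.valuation δ') with h | h
      · exact ⟨δ', hδ', (Valuation.map_add _ _ _).trans (max_le (l1.trans h) l2)⟩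
      · exact ⟨δ, hδ, (Valuation.map_add _ _ _).trans (max_le l1 (l2.trans h))⟩
    | smul c a _ ha =>
      obtain ⟨o, ho, h1⟩ := ha
      obtain ⟨o', ho', h2⟩ := hden c c.2
      refine ⟨o' * o, mul_ne_zero ho' ho, fun V hV hyV => ?_⟩
      obtain ⟨δ, hδ, hle⟩ := h1 V hV hyV
      refine ⟨δ, hδ, ?_⟩
      have hBV : ∀ b ∈ B, b ∈ V := by
        let V' : Subalgebra O F := { V.toSubring with algebraMap_mem' := hV }
        have : B ≤ V' := Algebra.adjoin_le (by
          rintro _ ⟨j, rfl⟩
          exact hyV j)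
        exact this
      have e1 : algebraMap O F (o' * o) * ((c • a : C) : F) =
          (algebraMap O F o' * (c : F)) * (algebraMap O F o * (a : F)) := by
        rw [smul_eq_mul, Subalgebra.coe_mul, map_mul]; ring
      rw [e1, map_mul]
      exact mul_le_of_le_one_of_le ((V.valuation_le_one_iff _).2 (hBV _ h2)) hle
  obtain ⟨o, ho, h1⟩ := key 1 (by rw [hJ]; trivial)
  refine ⟨o, ho, fun V hV hyV => ?_⟩
  obtain ⟨δ, hδ, hle⟩ := h1 V hV hyV
  refine ⟨δ, hδ, ?_⟩
  rw [OneMemClass.coe_one, mul_one] at hle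
  exact hle

/-- A uniform integer. -/
theorem uniform_int [CharZero K] (hint : ∀ o : O, IsIntegral ℤ o) {n : ℕ}
    (y : Fin n → F) (hy : ∀ i, y i ≠ 0)
    (hreg : ∀ (i : Fin n) (P : Ideal (Algebra.adjoin K (Set.range fun j => y j / y i)).toSubring)
      [P.IsPrime], IsRegularLocalRing (Localization.AtPrime P)) :
    ∃ N : ℕ, N ≠ 0 ∧ ∀ (i : Fin n) (V : ValuationSubring F), Cn O V → (∀ j, y j / y i ∈ V) →
      ∃ δ, Mn O y i δ ∧ V.valuation (N : F) ≤ V.valuation δ := by
  classical
  choose o ho hst using fun i => uniform_chart (O := O) (K := K) y hy i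
    (fun P hP => hreg i P)
  have hprod : ∏ i, o i ≠ 0 := Finset.prod_ne_zero_iff.2 fun i _ => ho i
  have hcomap := Ideal.comap_ne_bot_of_integral_mem (I := Ideal.span {∏ i, o i}) hprod
    (Ideal.mem_span_singleton_self _) (hint _)
  obtain ⟨m, hm, hm0⟩ := Submodule.exists_mem_ne_zero_of_ne_bot hcomap
  rw [Ideal.mem_comap, Ideal.mem_span_singleton] at hm
  refine ⟨m.natAbs, Int.natAbs_ne_zero.2 hm0, fun i V hV hyV => ?_⟩
  obtain ⟨δ, hδ, hle⟩ := hst i V hV hyV
  refine ⟨δ, hδ, le_trans ?_ hle⟩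
  have hdvd : o i ∣ algebraMap ℤ O m := (Finset.dvd_prod_of_mem o (Finset.mem_univ i)).trans hm
  have hOV : ∀ o : O, V.valuation (algebraMap O F o) ≤ 1 := fun o =>
    (V.valuation_le_one_iff _).2 (hV o)
  obtain ⟨c, hc⟩ := hdvd
  have h1 : V.valuation ((m : ℤ) : F) ≤ V.valuation (algebraMap O F (o i)) := by
    have h2 : ((m : ℤ) : F) = algebraMap O F (algebraMap ℤ O m) := by
      rw [eq_intCast, map_intCast]
    rw [h2, hc, map_mul, map_mul, mul_comm]
    exact mul_le_of_le_one_of_le (hOV c) le_rfl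
  have h3 : V.valuation ((m.natAbs : ℕ) : F) = V.valuation ((m : ℤ) : F) := by
    rcases Int.natAbs_eq m with h | h
    · conv_rhs => rw [h]
      rw [Int.cast_natCast]
    · conv_rhs => rw [h]
      rw [Int.cast_neg, Int.cast_natCast, Valuation.map_neg]
  rw [h3]
  exact h1

end

/-- **NUM** -/
theorem NUM : S_NUM := by
  intro E F _ _ _ _ _ _ n y hy hreg
  have hO : IsRegularRing (NumberField.RingOfIntegers E) := inferInstance
  exact uniform_int (O := NumberField.RingOfIntegers E) (K := E)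
    (fun o => NumberField.RingOfIntegers.isIntegral o) y hy hreg

end Pool.Agent.Run7.h639.RB
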